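import Pool.Agent.Helper25.LS.Defs

/-!
# LS, DE: the nonzero eigenvalues of a compact operator accumulate only at zero
-/

set_option autoImplicit false

open Filter Topology Module

noncomputable section

namespace Pool.Agent.Helper12.LS

open Pool.Agent.Helper25.LS

theorem de : S_DE := by
  intro X _ _ T hT r hr
  by_contra hinf
  have hinf' : {μ : ℂ | r ≤ ‖μ‖ ∧ ∃ v : X, v ≠ 0 ∧ T v = μ • v}.Infinite := hinf
  let e := hinf'.natEmbedding
  have hμr : ∀ n, r ≤ ‖(e n : ℂ)‖ := fun n => (e n).2.1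
  have hv : ∀ n, ∃ v : X, v ≠ 0 ∧ T v = (e n : ℂ) • v := fun n => (e n).2.2
  choose v hv0 hTv using hv
  have hli : LinearIndependent ℂ v := by
    refine Module.End.eigenvectors_linearIndependent' (T : X →ₗ[ℂ] X) (fun n => (e n : ℂ))
      (fun a b h => e.injective (Subtype.ext h)) v fun n => ?_
    rw [Module.End.hasEigenvector_iff, Module.End.mem_genEigenspace_one]
    exact ⟨hTv n, hv0 n⟩
  let F : ℕ → Submodule ℂ X := fun n => Submodule.span ℂ (v '' {i | i < n})
  have hFmono : ∀ {m n : ℕ}, m ≤ n → F m ≤ F n := fun {m n} h =>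
    Submodule.span_mono (Set.image_mono fun i (hi : i < m) => lt_of_lt_of_le hi h)
  have hFfin : ∀ n, FiniteDimensional ℂ (F n) := fun n =>
    FiniteDimensional.span_of_finite ℂ ((Set.finite_lt_nat n).image v)
  have hFclosed : ∀ n, IsClosed (F n : Set X) := fun n => by
    have := hFfin n
    exact Submodule.closed_of_finiteDimensional _
  have hvmem : ∀ {i n : ℕ}, i < n → v i ∈ F n := fun {i n} h =>
    Submodule.subset_span ⟨i, h, rfl⟩
  have hvn : ∀ n, v n ∉ F n := fun n => by
    have := hli.notMem_span_image (s := {i | i < n}) (x := n) (by simp)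
    exact this
  -- invariance
  have hTF : ∀ n, ∀ u ∈ F n, T u ∈ F n := by
    intro n u hu
    induction hu using Submodule.span_induction with
    | mem x hx =>
      obtain ⟨i, hi, rfl⟩ := hx
      rw [hTv]
      exact Submodule.smul_mem _ _ (hvmem hi)
    | zero => simp
    | add x y _ _ hx hy => rw [map_add]; exact Submodule.add_mem _ hx hy
    | smul a x _ hx => rw [map_smul]; exact Submodule.smul_mem _ _ hx
  have hTF' : ∀ n, ∀ u ∈ F (n + 1), T u - (e n : ℂ) • u ∈ F n := by
    intro n u hu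
    induction hu using Submodule.span_induction with
    | mem x hx =>
      obtain ⟨i, hi, rfl⟩ := hx
      rw [hTv, ← sub_smul]
      rcases Nat.lt_succ_iff_lt_or_eq.1 (show i < n + 1 from hi) with h | h
      · exact Submodule.smul_mem _ _ (hvmem h)
      · rw [h, sub_self, zero_smul]; exact Submodule.zero_mem _
    | zero => simp
    | add x y _ _ hx hy =>
      have : T (x + y) - (e n : ℂ) • (x + y) =
          (T x - (e n : ℂ) • x) + (T y - (e n : ℂ) • y) := by
        rw [map_add, smul_add]; abel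
      rw [this]; exact Submodule.add_mem _ hx hy
    | smul a x _ hx =>
      have : T (a • x) - (e n : ℂ) • (a • x) = a • (T x - (e n : ℂ) • x) := by
        rw [map_smul, smul_sub, smul_comm]
      rw [this]; exact Submodule.smul_mem _ _ hx
  -- Riesz
  have hR : ∀ n, ∃ u ∈ F (n + 1), ‖u‖ ≤ 3 ∧ ∀ y ∈ F n, 1 ≤ ‖u - y‖ := by
    intro n
    have h₁ : IsClosed (((F n).comap (F (n + 1)).subtype : Submodule ℂ (F (n + 1))) :
        Set (F (n + 1))) := by
      simpa using! (hFclosed n).preimage_val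
    have h₂ : ∃ x : F (n + 1), x ∉ (F n).comap (F (n + 1)).subtype :=
      ⟨⟨v n, hvmem (Nat.lt_succ_self n)⟩, fun h => hvn n h⟩
    obtain ⟨⟨x, hx⟩, hxn, hxy⟩ := riesz_lemma_of_norm_lt (𝕜 := ℂ) (c := 2) (by simp)
      (R := 3) (by norm_num) h₁ h₂
    refine ⟨x, hx, by simpa using hxn, fun y hy => ?_⟩
    have := hxy ⟨y, hFmono (Nat.le_succ n) hy⟩ hy
    simpa using this
  choose u huF hu3 hu1 using hR
  have hfar : ∀ {m n : ℕ}, m < n → r ≤ ‖T (u n) - T (u m)‖ := by
    intro m n hmn
    have hμ0 : (e n : ℂ) ≠ 0 := by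
      intro h
      have := hμr n
      rw [h, norm_zero] at this
      linarith
    let f : X := (e n : ℂ)⁻¹ • (T (u m) - (T (u n) - (e n : ℂ) • u n))
    have hf : f ∈ F n := by
      refine Submodule.smul_mem _ _ (Submodule.sub_mem _ ?_ (hTF' n _ (huF n)))
      exact hFmono hmn (hTF _ _ (huF m))
    have h1 : T (u n) - T (u m) = (e n : ℂ) • (u n - f) := by
      rw [smul_sub, smul_inv_smul₀ hμ0]
      abel
    rw [h1, norm_smul]
    have h2 := hu1 n f hf
    have h3 := hμr n
    nlinarith [norm_nonneg (u n - f)]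
  obtain ⟨K, hK, hK'⟩ := hT.image_closedBall_subset_compact 3
  obtain ⟨y, hyK, ψ, hψ, hψy⟩ := hK.tendsto_subseq (x := fun n => T (u n))
    (fun n ↦ hK' ⟨u n, by simpa using hu3 n, rfl⟩)
  replace hψy := hψy.cauchySeq
  rw [Metric.cauchySeq_iff'] at hψy
  obtain ⟨N, hN⟩ := hψy r hr
  have h4 := hN (N + 1) (Nat.le_succ N)
  have h5 := hfar (hψ (Nat.lt_succ_self N))
  rw [dist_eq_norm] at h4
  exact absurd h5 (not_le.2 h4)

end Pool.Agent.Helper12.LS
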